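import Pool.Agent.Helper11.RecipLaw
import Pool.Agent.Helper11.RecipBound

/-!
# MP_1bac61_nt: a reciprocity law for the solutions of order `n`

`r` is the number of the primes `p j` that are `3` modulo `4`, `t` the number of those that are `1`
modulo `4`.
-/

set_option autoImplicit false

namespace Pool.Agent.Results.MP_1bac61_nt.ReciprocityLaw

open Finset RecipLaw

/-- the number of indices `i` with `p i ≡ 3 (mod 4)` -/
def count3 {n : ℕ} (p : Fin n → ℕ) : ℕ := (univ.filter fun i => p i % 4 = 3).card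

/-- the number of indices `i` with `p i ≡ 1 (mod 4)` -/
def count1 {n : ℕ} (p : Fin n → ℕ) : ℕ := (univ.filter fun i => p i % 4 = 1).card

private theorem fact (n : ℕ) (p : Fin n → ℕ) (hp : ∀ i, (p i).Prime ∧ Odd (p i))
    (h : ∀ j, p j ∣ 2 * (∏ i ∈ univ.erase j, p i) + 1) (hn : n ≤ 57) :
    ∏ i, p i = 2 * (∑ j, ∏ i ∈ univ.erase j, p i) + 1 := by
  have hx : ∀ i ∈ (univ : Finset (Fin n)), p i % 2 = 1 := fun i _ => Nat.odd_iff.1 (hp i).2
  have hs : ∀ j ∈ (univ : Finset (Fin n)),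
      (p j : ℤ) ∣ 2 * ((∏ i ∈ univ.erase j, p i : ℕ) : ℤ) + 1 := by
    intro j _
    have h1 := Int.natCast_dvd_natCast.2 (h j)
    push_cast at h1 ⊢
    exact h1
  have hc := coprime_of_system 2 1 (Or.inl rfl) hs
  have hd := dvd_total 2 1 hc hs
  have hd' : ∏ i, p i ∣ 2 * (∑ j, ∏ i ∈ univ.erase j, p i) + 1 := by
    have : ((∏ i, p i : ℕ) : ℤ) ∣ ((2 * (∑ j, ∏ i ∈ univ.erase j, p i) + 1 : ℕ) : ℤ) := by
      push_cast at hd ⊢
      exact hd
    exact Int.natCast_dvd_natCast.1 this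
  obtain ⟨k, hk⟩ := hd'
  have hinj : Function.Injective p := by
    intro i j hij
    by_contra hne
    have h1 := hc i (mem_univ _) j (mem_univ _) hne
    rw [hij, Nat.coprime_self] at h1
    exact (hp j).1.one_lt.ne' h1
  have hT : ∀ q ∈ univ.image p, q.Prime ∧ q % 2 = 1 := by
    intro q hq
    obtain ⟨i, _, rfl⟩ := mem_image.1 hq
    exact ⟨(hp i).1, Nat.odd_iff.1 (hp i).2⟩
  have hcard : (univ.image p).card ≤ 57 := by
    rw [card_image_of_injective _ hinj, card_univ, Fintype.card_fin]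
    exact hn
  have hlt := lt_three hT hcard
  rw [sum_image (fun i _ j _ hij => hinj hij), prod_image (fun i _ j _ hij => hinj hij)] at hlt
  have hP : (0 : ℚ) < ((∏ i, p i : ℕ) : ℚ) := by
    have : 0 < ∏ i, p i := prod_pos fun i _ => (hp i).1.pos
    exact_mod_cast this
  have hsum : (∑ i, (1 : ℚ) / (p i : ℕ)) * ((∏ i, p i : ℕ) : ℚ) =
      ((∑ j, ∏ i ∈ univ.erase j, p i : ℕ) : ℚ) := by
    rw [sum_mul, Nat.cast_sum]
    refine sum_congr rfl fun j _ => ?_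
    have h1 : (p j : ℚ) ≠ 0 := by exact_mod_cast (hp j).1.ne_zero
    rw [← mul_prod_erase univ p (mem_univ j), Nat.cast_mul]
    field_simp
  have h2 : ((2 * (∑ j, ∏ i ∈ univ.erase j, p i) + 1 : ℕ) : ℚ) < 3 * ((∏ i, p i : ℕ) : ℚ) := by
    have h3 := mul_lt_mul_of_pos_right hlt hP
    rw [add_mul, mul_assoc, hsum, one_div_mul_cancel hP.ne'] at h3
    push_cast at h3 ⊢
    exact h3
  have h4 : 2 * (∑ j, ∏ i ∈ univ.erase j, p i) + 1 < 3 * (∏ i, p i) := by exact_mod_cast h2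
  rw [hk] at h4
  have h5 : k < 3 := by
    by_contra h6
    have : 3 * (∏ i, p i) ≤ (∏ i, p i) * k := by
      rw [mul_comm 3]
      exact Nat.mul_le_mul_left _ (by omega)
    omega
  have h7 := prod_odd hx
  have h8 : k % 2 = 1 := by
    by_contra h9
    have h10 : k % 2 = 0 := by omega
    have h11 : ((∏ i, p i) * k) % 2 = 0 := by rw [Nat.mul_mod, h10]; simp
    omega
  have h12 : k = 1 := by omega
  rw [hk, h12, mul_one]

/-- **Reciprocity law for the Ke-Sun system.** -/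
theorem result (n : ℕ) (p : Fin n → ℕ) (hp : ∀ i, (p i).Prime ∧ Odd (p i))
    (h : ∀ j, p j ∣ 2 * (∏ i ∈ univ.erase j, p i) + 1) :
    ∏ i, p i ≡ 2 * count3 p + 1 [MOD 8] ∧
    (∃ k : ℕ, k * ∏ i, p i = 2 * (∑ j, ∏ i ∈ univ.erase j, p i) + 1 ∧
      k ≡ 2 * count1 p + 1 [MOD 8] ∧
      k * ∏ i, p i ≡ 1 + 2 * (∏ i, p i) * (n + 2 * (count3 p * count3 p)) [MOD 16]) ∧
    (n ≤ 57 → 4 ∣ count1 p ∧ ∏ i, p i ≡ 2 * n + 1 [MOD 16] ∧
      ((∃ j, p j = 3) → 2 * ∏ i, p i + 30 ≡ 36 * n [MOD 288])) := by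
  have hx : ∀ i ∈ (univ : Finset (Fin n)), p i % 2 = 1 := fun i _ => Nat.odd_iff.1 (hp i).2
  have hs : ∀ j ∈ (univ : Finset (Fin n)),
      (p j : ℤ) ∣ 2 * ((∏ i ∈ univ.erase j, p i : ℕ) : ℤ) + 1 := by
    intro j _
    have h1 := Int.natCast_dvd_natCast.2 (h j)
    push_cast at h1 ⊢
    exact h1
  have hc := coprime_of_system 2 1 (Or.inl rfl) hs
  have hd := dvd_total 2 1 hc hs
  have hd' : ∏ i, p i ∣ 2 * (∑ j, ∏ i ∈ univ.erase j, p i) + 1 := by
    have : ((∏ i, p i : ℕ) : ℤ) ∣ ((2 * (∑ j, ∏ i ∈ univ.erase j, p i) + 1 : ℕ) : ℤ) := by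
      push_cast at hd ⊢
      exact hd
    exact Int.natCast_dvd_natCast.1 this
  obtain ⟨k, hk⟩ := hd'
  have hk' : k * ∏ i, p i = 2 * (∑ j, ∏ i ∈ univ.erase j, p i) + 1 := by rw [hk, mul_comm]
  have h16 := two_one_mod16 hx hs
  rw [← hk', card_univ, Fintype.card_fin] at h16
  refine ⟨two_one_mod8 hx hs, ⟨k, hk', two_one_k8 hx hs hk', h16⟩, ?_⟩
  intro hn
  have h1 := fact n p hp h hn
  have h2 := two_one_k_one hx hs h1
  have h3 : ∏ i, p i ≡ 2 * n + 1 [MOD 16] := by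
    have := h2.2.2
    rwa [card_univ, Fintype.card_fin] at this
  refine ⟨h2.1, h3, ?_⟩
  rintro ⟨j, hj⟩
  have h4 := h j
  rw [hj] at h4
  have h5 := mul_prod_erase univ p (mem_univ j)
  rw [hj] at h5
  have h6 : (∏ i, p i) % 9 = 3 := by omega
  unfold Nat.ModEq at h3 ⊢
  omega

end Pool.Agent.Results.MP_1bac61_nt.ReciprocityLaw
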